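import Pool.Agent.Helper68.Dom.Goals

/-!
Packet DOM-BRANCH.
-/

namespace NApexGraphs.Dom.Helper86

open SimpleGraph

theorem branch_aux (V : Type) [Finite V] (G : SimpleGraph V) (p : V) : ∀ (k : ℕ) (S E F : Set V),
    S.ncard ≤ k → Conn G S → p ∈ S →
    Conn G E → Conn G F → Disjoint S E → Disjoint S F → Disjoint E F → Touch G S E →
    Touch G S F →
    (∃ E' F' : Set V, E ⊆ E' ∧ F ⊆ F' ∧ Conn G E' ∧ Conn G F' ∧ Disjoint E' F' ∧
      E' ⊆ (E ∪ S) \ {p} ∧ F' ⊆ (F ∪ S) \ {p} ∧ Touch G E' {p} ∧ Touch G F' {p}) ∨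
    (∃ (E' F' T : Set V) (y : V), E ⊆ E' ∧ F ⊆ F' ∧ Conn G E' ∧ Conn G F' ∧ Conn G T ∧ p ∈ T ∧
      y ∈ S ∧ y ∉ T ∧ y ∉ E' ∧ y ∉ F' ∧ Disjoint E' F' ∧ Disjoint E' T ∧ Disjoint F' T ∧
      E' ⊆ E ∪ S ∧ F' ⊆ F ∪ S ∧ T ⊆ S ∧ Touch G E' {y} ∧ Touch G F' {y} ∧ Touch G T {y}) := by
  intro k
  induction k with
  | zero =>
    intro S E F hk hS hp
    exfalso
    have h1 : S.ncard = 0 := by omega
    rw [Set.ncard_eq_zero (Set.toFinite S)] at h1
    rw [h1] at hp
    exact hp
  | succ k ih =>
    intro S E F hk hS hp hE hF hSE hSF hEF tE tF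
    have hpE : p ∉ E := fun h => Set.disjoint_left.mp hSE hp h
    have hpF : p ∉ F := fun h => Set.disjoint_left.mp hSF hp h
    by_cases hSp : S = {p}
    · left
      refine ⟨E, F, Set.Subset.rfl, Set.Subset.rfl, hE, hF, hEF, ?_, ?_, ?_, ?_⟩
      · intro x hx
        exact ⟨Or.inl hx, fun h => hpE (h ▸ hx)⟩
      · intro x hx
        exact ⟨Or.inl hx, fun h => hpF (h ▸ hx)⟩
      · rw [← hSp]; exact tE.symm
      · rw [← hSp]; exact tF.symm
    · have hfin : {C : Set V | p ∈ C ∧ C ⊆ S ∧ C ≠ S ∧ Conn G C}.Finite := Set.toFinite _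
      obtain ⟨T, ⟨hpT, hTS, hTne, hT⟩, hmax⟩ := hfin.exists_maximal
        ⟨{p}, rfl, Set.singleton_subset_iff.mpr hp, fun h => hSp h.symm, Conn.singleton G p⟩
      have hdiff : (S \ T).Nonempty := by
        rw [Set.nonempty_iff_ne_empty]
        intro h
        rw [Set.diff_eq_empty] at h
        exact hTne (Set.Subset.antisymm hTS h)
      obtain ⟨x, hxS, hxT, y, hyS, hyT, hxy⟩ := hS.exists_edge ⟨p, hp, hpT⟩ hdiff
      have hTy : Conn G (T ∪ {y}) := hT.union (Conn.singleton G y) ⟨x, hxT, y, rfl, hxy⟩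
      have hSeq : S = T ∪ {y} := by
        by_contra hne
        have h1 : T ∪ {y} ⊆ T := hmax ⟨Or.inl hpT,
          Set.union_subset hTS (Set.singleton_subset_iff.mpr hyS), fun h => hne h.symm, hTy⟩
          Set.subset_union_left
        exact hyT (h1 (Or.inr rfl))
      have hcard : T.ncard ≤ k := by
        have : T.ncard < S.ncard := Set.ncard_lt_ncard (hTS.ssubset_of_ne hTne) (Set.toFinite S)
        omega
      have hTE : Disjoint T E := hSE.mono_left hTS
      have hTF : Disjoint T F := hSF.mono_left hTS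
      have hyE : y ∉ E := fun h => Set.disjoint_left.mp hSE hyS h
      have hyF : y ∉ F := fun h => Set.disjoint_left.mp hSF hyS h
      have hTyt : Touch G T {y} := ⟨x, hxT, y, rfl, hxy⟩
      have key : ∀ X : Set V, Touch G S X → ¬ Touch G T X → Touch G {y} X := by
        rintro X ⟨a, ha, b, hb, hab⟩ hn
        rw [hSeq] at ha
        rcases ha with ha | ha
        · exact absurd ⟨a, ha, b, hb, hab⟩ hn
        · exact ⟨a, ha, b, hb, hab⟩
      have hyS' : ({y} : Set V) ⊆ S := Set.singleton_subset_iff.mpr hyS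
      have mon : ∀ X X' : Set V, X' ⊆ X ∪ T → X' ⊆ X ∪ S := fun X X' h =>
        h.trans (Set.union_subset_union_right X hTS)
      have mon2 : ∀ X X' : Set V, X' ⊆ (X ∪ {y}) ∪ T → X' ⊆ X ∪ S := by
        intro X X' h z hz
        rcases h hz with (h1 | h1) | h1
        · exact Or.inl h1
        · exact Or.inr (hyS' h1)
        · exact Or.inr (hTS h1)
      by_cases c1 : Touch G T E
      · by_cases c2 : Touch G T F
        · rcases ih T E F hcard hT hpT hE hF hTE hTF hEF c1 c2 with
            ⟨E', F', a1, a2, a3, a4, a5, a6, a7, a8, a9⟩ |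
            ⟨E', F', T', z, a1, a2, a3, a4, a5, a6, a7, a8, a9, a10, a11, a12, a13, a14, a15, a16,
              a17⟩
          · left
            exact ⟨E', F', a1, a2, a3, a4, a5, a6.trans (Set.diff_subset_diff_left (mon E _
              Set.Subset.rfl)), a7.trans (Set.diff_subset_diff_left (mon F _ Set.Subset.rfl)),
              a8, a9⟩
          · right
            exact ⟨E', F', T', z, a1, a2, a3, a4, a5, a6, hTS a7, a8, a9, a10, a11, a12, a13,
              mon _ _ a14, mon _ _ a15, a16.trans hTS, a17⟩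
        · -- `T` touches `E` but not `F`
          have hyF' := key F tF c2
          have hF2 : Conn G (F ∪ {y}) := hF.union (Conn.singleton G y) hyF'.symm
          rcases ih T E (F ∪ {y}) hcard hT hpT hE hF2 hTE
            (Set.disjoint_union_right.mpr ⟨hTF, Set.disjoint_singleton_right.mpr hyT⟩)
            (Set.disjoint_union_right.mpr ⟨hEF, Set.disjoint_singleton_right.mpr hyE⟩) c1
            (hTyt.mono le_rfl Set.Subset.rfl Set.subset_union_right) with
            ⟨E', F', a1, a2, a3, a4, a5, a6, a7, a8, a9⟩ |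
            ⟨E', F', T', z, a1, a2, a3, a4, a5, a6, a7, a8, a9, a10, a11, a12, a13, a14, a15, a16,
              a17⟩
          · left
            exact ⟨E', F', a1, Set.subset_union_left.trans a2, a3, a4, a5,
              a6.trans (Set.diff_subset_diff_left (mon E _ Set.Subset.rfl)),
              a7.trans (Set.diff_subset_diff_left (mon2 F _ Set.Subset.rfl)), a8, a9⟩
          · right
            exact ⟨E', F', T', z, a1, Set.subset_union_left.trans a2, a3, a4, a5, a6, hTS a7, a8,
              a9, a10, a11, a12, a13, mon _ _ a14, mon2 _ _ a15, a16.trans hTS, a17⟩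
      · have hyE' := key E tE c1
        have hE2 : Conn G (E ∪ {y}) := hE.union (Conn.singleton G y) hyE'.symm
        by_cases c2 : Touch G T F
        · rcases ih T (E ∪ {y}) F hcard hT hpT hE2 hF
            (Set.disjoint_union_right.mpr ⟨hTE, Set.disjoint_singleton_right.mpr hyT⟩) hTF
            (Set.disjoint_union_left.mpr ⟨hEF, Set.disjoint_singleton_left.mpr hyF⟩)
            (hTyt.mono le_rfl Set.Subset.rfl Set.subset_union_right) c2 with
            ⟨E', F', a1, a2, a3, a4, a5, a6, a7, a8, a9⟩ |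
            ⟨E', F', T', z, a1, a2, a3, a4, a5, a6, a7, a8, a9, a10, a11, a12, a13, a14, a15, a16,
              a17⟩
          · left
            exact ⟨E', F', Set.subset_union_left.trans a1, a2, a3, a4, a5,
              a6.trans (Set.diff_subset_diff_left (mon2 E _ Set.Subset.rfl)),
              a7.trans (Set.diff_subset_diff_left (mon F _ Set.Subset.rfl)), a8, a9⟩
          · right
            exact ⟨E', F', T', z, Set.subset_union_left.trans a1, a2, a3, a4, a5, a6, hTS a7, a8,
              a9, a10, a11, a12, a13, mon2 _ _ a14, mon _ _ a15, a16.trans hTS, a17⟩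
        · right
          exact ⟨E, F, T, y, Set.Subset.rfl, Set.Subset.rfl, hE, hF, hT, hpT, hyS, hyT, hyE, hyF,
            hEF, hTE.symm, hTF.symm, Set.subset_union_left, Set.subset_union_left, hTS,
            hyE'.symm, (key F tF c2).symm, hTyt⟩

theorem gBRANCH : Goals.BRANCH := by
  intro V _ G S E F p hS hp hE hF hSE hSF hEF tE tF
  exact branch_aux V G p S.ncard S E F le_rfl hS hp hE hF hSE hSF hEF tE tF

end NApexGraphs.Dom.Helper86
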